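import Pool.Agent.H96.BesAsy

/-!
# Triple systems decided by circuits of depth three

The vertices have names of `m` bits, `n ≤ 2 ^ m ≤ D n`, in any labelling. A circuit which reads the
names of three vertices decides whether they form an edge; it is an OR of at most `L` formulas in
3-CNF (each clause may mix bits of the three names, and there may be any number of clauses), that
is, a circuit of depth three with bottom fan-in 3 and top fan-in `L`. If no `k` edges have at most
`k + 3` vertices, where `k = 18` or `k ≥ 23`, there are at most `L n ^ (9 / 5)` edges. Hence the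
bound `o(n ^ 2)` of the conjecture holds for these `k` in the class of all triple systems decided
by such circuits with `o(n ^ (1 / 5))` gates. If the `L` sets are median-closed (2-CNFs), there
are at most `L n ^ (1 + o(1))` edges.

Method: the number of members of a `k`-CNF without large locally isolated flips is bounded as in
the analysis of the `k`-SAT algorithm of Paturi, Pudlák, Saks and Zane; in a larger set there is a
member and flips of three types (those of type `j` leave the `j`-th vertex unchanged) all of whose
unions can be applied, and this gives an image of a grid of triples.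
-/

set_option autoImplicit false

namespace Pool.Agent.Results.MP_c82047_co.DepthThreeCircuits

open Pool.Agent.H96.Ppz Pool.Agent.H96.Bes Pool.Agent.H96.Median

open Classical in
theorem result :
    -- (1) circuits of depth three with bottom fan-in three
    (∀ k D : ℕ, (k = 18 ∨ 23 ≤ k) →
      ∃ n₀ : ℕ, ∀ (n m L : ℕ) (lab : Fin n → Fin m → Bool) (E : Finset (Finset (Fin n))), n₀ ≤ n →
        Function.Injective lab → 2 ^ m ≤ D * n → (∀ s ∈ E, s.card = 3) →
        Depth3 L 3 (Rel 3 lab E) →
        (∀ T ⊆ E, T.card = k → k + 3 < (T.biUnion id).card) →
        (E.card : ℝ) ≤ L * (n : ℝ) ^ ((9 : ℝ) / 5)) ∧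
    -- (2) unions of median-closed sets
    (∀ (k D : ℕ) (ε : ℝ), (k = 18 ∨ 23 ≤ k) → 0 < ε →
      ∃ n₀ : ℕ, ∀ (n m L : ℕ) (lab : Fin n → Fin m → Bool) (E : Finset (Finset (Fin n))), n₀ ≤ n →
        Function.Injective lab → 2 ^ m ≤ D * n → (∀ s ∈ E, s.card = 3) →
        MedUnion L (Rel 3 lab E) →
        (∀ T ⊆ E, T.card = k → k + 3 < (T.biUnion id).card) →
        (E.card : ℝ) ≤ L * (n : ℝ) ^ (1 + ε)) :=
  ⟨bes_triple, triple_median⟩

end Pool.Agent.Results.MP_c82047_co.DepthThreeCircuits
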