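import Pool.Agent.R2.GL.Sparse

set_option autoImplicit false

open Finset

namespace Pool.Agent.Results.MP_c82047_co.LargePrimeOrbits

/-!
# Triple systems whose orbits are divisible by a large prime

For instance: for fixed `m` let `H` be a point-transitive triple system on `m p` points, `p` prime.
If every `k` points span fewer than `k + ⌊k / K⌋` triples then its degree is bounded by a constant
which depends only on `m` and `k`; and if `n` has a prime factor `p > √n`, then a point-transitive
triple system with `n` points and more than `C n ^ (3 / 2 + δ)` triples has `k` points which span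
`k + ⌊k / K⌋` triples. The second part applies to partial Latin squares of order `n = m p` (rows,
columns and symbols being the points) with a group of autotopisms which is transitive on the rows
and on the symbols and fixes all columns. Nothing is assumed about the structure or the order of the
group.

Proof idea. An element of a Sylow `p`-subgroup without fixed points in the long orbits exists by a
counting argument; all its cycles there have length `p` because their lengths are powers of `p`
below `p ^ 2`, and it fixes the points of the short orbits. So it generates a cyclic group of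
order `p` with at most `w / p` orbits with more than one element, and the starting theorem
`SolvableSymmetry` (its local form) applies.
-/

theorem enlarge {V : Type} [Fintype V] [DecidableEq V] (H : Finset (Finset V)) (K k : ℕ)
    (hkV : k ≤ Fintype.card V)
    (h : ∃ E ⊆ H, E.card = k + k / K ∧
      K * (E.biUnion id).card + (k + k / K) ≤ K * ((3 - 2) * (k + k / K))) (hk : K ≤ k)
    (hK1 : 1 ≤ K) :
    ∃ S : Finset V, S.card = k ∧ k + k / K ≤ #{e ∈ H | e ⊆ S} := by
  obtain ⟨E, hE, hEc, hEu⟩ := h
  have h1 : (E.biUnion id).card ≤ k := by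
    have e1 : (3 - 2) * (k + k / K) = k + k / K := by omega
    rw [e1] at hEu
    have h2 : k / K * K ≤ k := Nat.div_mul_le_self k K
    by_contra hcon
    push Not at hcon
    have h3 : K * (k + 1) ≤ K * (E.biUnion id).card := Nat.mul_le_mul_left _ hcon
    have h4 : K * (k + k / K) = K * k + k / K * K := by ring
    rw [h4] at hEu
    have h6 : K * (k + 1) = K * k + K := by ring
    generalize k / K = d at *
    omega
  obtain ⟨S, hS1, hS2⟩ := exists_superset_card_eq h1 hkV
  refine ⟨S, hS2, ?_⟩
  rw [← hEc]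
  apply card_le_card
  intro e he
  rw [mem_filter]
  exact ⟨hE he, (subset_biUnion_of_mem id he).trans hS1⟩

theorem deg_le {V : Type} [Fintype V] [DecidableEq V] (H : Finset (Finset V))
    (hunif : ∀ e ∈ H, e.card = 3) (b : V) : #{e ∈ H | b ∈ e} ≤ Fintype.card V * Fintype.card V := by
  have h1 : ((H.filter fun e => b ∈ e).image fun e => e.erase b) ⊆ powersetCard 2 univ := by
    intro e he
    obtain ⟨f, hf, rfl⟩ := mem_image.1 he
    rw [mem_filter] at hf
    rw [mem_powersetCard]
    refine ⟨subset_univ _, ?_⟩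
    rw [card_erase_of_mem hf.2, hunif f hf.1]
  have h2 : ((H.filter fun e => b ∈ e).image fun e => e.erase b).card =
      (H.filter fun e => b ∈ e).card := by
    apply card_image_of_injOn
    intro e he f hf h
    have he' := (mem_filter.1 (mem_coe.1 he)).2
    have hf' := (mem_filter.1 (mem_coe.1 hf)).2
    have h' : e.erase b = f.erase b := h
    rw [← insert_erase he', h', insert_erase hf']
  rw [← h2]
  refine (card_le_card h1).trans ?_
  rw [card_powersetCard, card_univ, ← pow_two]
  exact Nat.choose_le_pow _ _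

/-- `H` is a set of triples in `V`, `Γ` any group of automorphisms of `H`, `p` a prime.
(1) The length of every orbit of `Γ` on `V` is divisible by `p`, `n = |V| < p ^ 2`, and there are
more than `C n (n / p) ^ (1 + δ)` triples or a point in more than `C (n / p) ^ (1 + δ)` triples.
(2) The length of every orbit of `Γ` on `V` is divisible by `p` or smaller than `p`, the orbits of
the first kind have together `w < p ^ 2` points, `p ≥ C`, and some point in such an orbit lies in
more than `C (w / p) ^ (1 + δ)` triples.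
In both cases some `k` points span at least `k + ⌊k / K⌋` triples. Here `K` depends only on
`δ > 0`, and `C` only on `δ, k ≥ K`. -/
theorem result (δ : ℝ) (hδ : 0 < δ) :
    (∃ K : ℕ, 1 ≤ K ∧ ∀ k : ℕ, K ≤ k → ∃ C : ℕ, ∀ p : ℕ, p.Prime →
      ∀ (V : Type) [Fintype V] [DecidableEq V] (H : Finset (Finset V))
        (Γ : Subgroup (Equiv.Perm V)), (∀ e ∈ H, e.card = 3) →
        (∀ a ∈ Γ, ∀ e ∈ H, e.image a ∈ H) →
        (∀ v : V, p ∣ Nat.card {u : V // ∃ a ∈ Γ, a v = u}) →
        Fintype.card V < p ^ 2 →
        ((C : ℝ) * Fintype.card V * (Fintype.card V / p : ℝ) ^ (1 + δ) < H.card ∨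
          ∃ b : V, (C : ℝ) * (Fintype.card V / p : ℝ) ^ (1 + δ) < (#{e ∈ H | b ∈ e} : ℕ)) →
        ∃ S : Finset V, S.card = k ∧ k + k / K ≤ #{e ∈ H | e ⊆ S}) ∧
    (∃ K : ℕ, 1 ≤ K ∧ ∀ k : ℕ, K ≤ k → ∃ C : ℕ, ∀ p : ℕ, p.Prime → C ≤ p →
      ∀ (V : Type) [Fintype V] [DecidableEq V] (H : Finset (Finset V))
        (Γ : Subgroup (Equiv.Perm V)), (∀ e ∈ H, e.card = 3) →
        (∀ a ∈ Γ, ∀ e ∈ H, e.image a ∈ H) →
        (∀ v : V, p ∣ Nat.card {u : V // ∃ a ∈ Γ, a v = u} ∨
          Nat.card {u : V // ∃ a ∈ Γ, a v = u} < p) →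
        {v : V | p ∣ Nat.card {u : V // ∃ a ∈ Γ, a v = u}}.ncard < p ^ 2 →
        ∀ b : V, p ∣ Nat.card {u : V // ∃ a ∈ Γ, a b = u} →
        (C : ℝ) * ({v : V | p ∣ Nat.card {u : V // ∃ a ∈ Γ, a v = u}}.ncard / p : ℝ) ^ (1 + δ) <
          (#{e ∈ H | b ∈ e} : ℕ) →
        ∃ S : Finset V, S.card = k ∧ k + k / K ≤ #{e ∈ H | e ⊆ S}) := by
  constructor
  · obtain ⟨K, hK1, hK⟩ := Pool.Agent.R2.GL.sparse_all 3 le_rfl δ hδ
    refine ⟨K, hK1, fun k hk => ?_⟩
    obtain ⟨C, hC⟩ := hK (k + k / K) (le_trans hk (Nat.le_add_right _ _))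
    refine ⟨C + k * k, ?_⟩
    intro p hp V _ _ H Γ hunif hinv h1 h2 hH
    have hX : (0 : ℝ) ≤ (Fintype.card V / p : ℝ) ^ (1 + δ) := by positivity
    have hCC : (C : ℝ) ≤ ((C + k * k : ℕ) : ℝ) := by exact_mod_cast Nat.le_add_right _ _
    have hkC : (k * k : ℝ) ≤ ((C + k * k : ℕ) : ℝ) := by exact_mod_cast Nat.le_add_left _ _
    -- a point
    obtain ⟨b₀⟩ : Nonempty V := by
      by_contra hcon
      rw [not_nonempty_iff] at hcon
      rcases hH with hH | ⟨b, -⟩
      · have h3 : H = ∅ := by
          apply eq_empty_of_forall_notMem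
          intro e he
          have h4 := hunif e he
          obtain ⟨x, -⟩ := card_pos.1 (by omega : 0 < e.card)
          exact hcon.false x
        rw [h3, Fintype.card_eq_zero] at hH
        simp at hH
      · exact hcon.false b
    have hpn : (1 : ℝ) ≤ (Fintype.card V / p : ℝ) := by
      have hp0 : (0 : ℝ) < p := by exact_mod_cast hp.pos
      rw [le_div_iff₀ hp0, one_mul]
      have h3 : Nat.card {u : V // ∃ a ∈ Γ, a b₀ = u} ≤ Fintype.card V := by
        rw [← Nat.card_eq_fintype_card]
        exact Nat.card_le_card_of_injective _ Subtype.val_injective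
      have h4 : 0 < Nat.card {u : V // ∃ a ∈ Γ, a b₀ = u} := by
        have : Nonempty {u : V // ∃ a ∈ Γ, a b₀ = u} := ⟨⟨b₀, 1, Γ.one_mem, rfl⟩⟩
        exact Nat.card_pos
      have h5 := Nat.le_of_dvd h4 (h1 b₀)
      exact_mod_cast h5.trans h3
    have hX1 : (1 : ℝ) ≤ (Fintype.card V / p : ℝ) ^ (1 + δ) :=
      Real.one_le_rpow hpn (by linarith)
    -- a point of large degree
    have hdeg : ∃ b : V, ((C + k * k : ℕ) : ℝ) * (Fintype.card V / p : ℝ) ^ (1 + δ) <
        (#{e ∈ H | b ∈ e} : ℕ) := by
      rcases hH with hH | hH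
      · by_contra hcon
        push Not at hcon
        have h1 := sum_card_bipartiteAbove_eq_sum_card_bipartiteBelow
          (s := (univ : Finset V)) (t := H) (fun b e => b ∈ e)
        simp only [bipartiteAbove, bipartiteBelow] at h1
        have h2 : ∀ e ∈ H, #{b ∈ (univ : Finset V) | b ∈ e} = 3 := by
          intro e he
          rw [← hunif e he]
          congr 1
          ext b
          simp
        rw [sum_congr rfl h2, sum_const, smul_eq_mul] at h1
        have h3 : ((∑ b : V, #{e ∈ H | b ∈ e} : ℕ) : ℝ) ≤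
            ∑ _b : V, ((C + k * k : ℕ) : ℝ) * (Fintype.card V / p : ℝ) ^ (1 + δ) := by
          rw [Nat.cast_sum]
          exact sum_le_sum fun b _ => hcon b
        rw [h1, sum_const, card_univ, nsmul_eq_mul] at h3
        have h5 : (0 : ℝ) ≤ (H.card : ℝ) := Nat.cast_nonneg _
        have h6 : ((C + k * k : ℕ) : ℝ) * Fintype.card V * (Fintype.card V / p : ℝ) ^ (1 + δ) =
          (Fintype.card V : ℝ) * (((C + k * k : ℕ) : ℝ) *
            (Fintype.card V / p : ℝ) ^ (1 + δ)) := by ring
        rw [h6] at hH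
        rw [Nat.cast_mul] at h3
        have h7 : ((3 : ℕ) : ℝ) = 3 := by norm_num
        rw [h7] at h3
        linarith
      · exact hH
    obtain ⟨b, hb⟩ := hdeg
    have hkV : k ≤ Fintype.card V := by
      by_contra hcon
      push Not at hcon
      have h3 := deg_le H hunif b
      have h4 : Fintype.card V * Fintype.card V ≤ k * k := Nat.mul_le_mul hcon.le hcon.le
      have h5 : ((#{e ∈ H | b ∈ e} : ℕ) : ℝ) ≤ k * k := by exact_mod_cast h3.trans h4
      have h6 : ((C + k * k : ℕ) : ℝ) ≤
          ((C + k * k : ℕ) : ℝ) * (Fintype.card V / p : ℝ) ^ (1 + δ) := by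
        have : (0 : ℝ) ≤ ((C + k * k : ℕ) : ℝ) := Nat.cast_nonneg _
        nlinarith
      linarith
    refine enlarge H K k hkV (hC p hp V H Γ hunif hinv h1 h2 (Or.inr ⟨b, ?_⟩)) hk hK1
    exact lt_of_le_of_lt (mul_le_mul_of_nonneg_right hCC hX) hb
  · obtain ⟨K, hK1, hK⟩ := Pool.Agent.R2.GL.sparse_partial 3 le_rfl δ hδ
    refine ⟨K, hK1, fun k hk => ?_⟩
    obtain ⟨C, hC⟩ := hK (k + k / K) (le_trans hk (Nat.le_add_right _ _))
    refine ⟨C + k, ?_⟩
    intro p hp hCp V _ _ H Γ hunif hinv h1 h2 b hb hH
    have hX : (0 : ℝ) ≤ ({v : V | p ∣ Nat.card {u : V // ∃ a ∈ Γ, a v = u}}.ncard / p : ℝ) ^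
      (1 + δ) := by positivity
    have hCC : (C : ℝ) ≤ ((C + k : ℕ) : ℝ) := by exact_mod_cast Nat.le_add_right _ _
    have hkV : k ≤ Fintype.card V := by
      have h3 : Nat.card {u : V // ∃ a ∈ Γ, a b = u} ≤ Fintype.card V := by
        rw [← Nat.card_eq_fintype_card]
        exact Nat.card_le_card_of_injective _ Subtype.val_injective
      have h4 : 0 < Nat.card {u : V // ∃ a ∈ Γ, a b = u} := by
        have : Nonempty {u : V // ∃ a ∈ Γ, a b = u} := ⟨⟨b, 1, Γ.one_mem, rfl⟩⟩
        exact Nat.card_pos
      have h5 := Nat.le_of_dvd h4 hb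
      omega
    refine enlarge H K k hkV (hC p hp (by omega) V H Γ hunif hinv h1 h2 b hb ?_) hk hK1
    exact lt_of_le_of_lt (mul_le_mul_of_nonneg_right hCC hX) hH

end Pool.Agent.Results.MP_c82047_co.LargePrimeOrbits
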