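import Pool.Agent.R181.MajPieces

/-!
# The Brown-Erdős-Sós conjecture for triple systems closed under majority operations

A *majority piece* is a set of triples which is a relation between three disjoint sets `X`, `Y`, `Z`
of vertices, closed under the componentwise application of **some** (arbitrary) majority operations
on `X`, on `Y` and on `Z` (`μ(a,a,b) = μ(a,b,a) = μ(b,a,a) = a`). Examples are the relations closed
under componentwise meets and joins for arbitrary lattices, and those closed under medians.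

Let `H` be a 3-graph on `n` vertices which is the union of `L` majority pieces.

* If any `s ≥ 2` edges of `H` span more than `s + 2` vertices, then `|H| ≤ (s - 1) L (n/3)^{3/2}`. So
  the conjecture (for all `k = s + 3`) holds for these 3-graphs as long as `L = o(n^{1/2})`.
* The exponent is optimal for `k = 6, …, 19`, already for `L = 1`: for all `q` there is a majority
  piece with `n = 3 q²` vertices and `q³ = (n/3)^{3/2}` triples in which any `s` triples span more
  than `s + 3` vertices, for all `s = 3, …, 16`. Any two of its triples have at most one common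
  vertex; so for `s = 2` and `L = 1` the bound `(n/3)^{3/2}` is the exact maximum.

Idea of the proof. Let `θ₁`, `θ₂`, `θ₃` be the kernels of the three coordinates of one piece `E`. These
are congruences of an algebra with a majority operation, so they generate a distributive lattice,
and `(θ₁ ∨ θ₂) ∧ (θ₂ ∨ θ₃) ∧ (θ₁ ∨ θ₃) = (θ₁ ∧ θ₂) ∨ (θ₂ ∧ θ₃) ∨ (θ₁ ∧ θ₃) =: δ`. The classes of `δ` are
the tight components; by assumption they have less than `s` elements. So up to the factor `s - 1`, the
piece is a subset of `E/(θ₁ ∨ θ₂) × E/(θ₂ ∨ θ₃) × E/(θ₁ ∨ θ₃)`, two of the three coordinates being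
determined by each vertex of a triple. Now apply the inequality of Loomis and Whitney.
-/

set_option autoImplicit false

namespace Pool.Agent.Results.MP_c82047_co.MajorityPieces

open Finset Pool.Agent.R181.Maj

theorem upper (s L : ℕ) (hs : 2 ≤ s) (V : Type) [Fintype V] (H : Set (Finset V))
    (F : Fin L → Set (Finset V)) (hF : ∀ i, MajorityPiece 3 (F i)) (hH : H = ⋃ i, F i)
    (hsp : SpanMore H s (s + 2)) :
    (H.ncard : ℝ) ≤ (s - 1) * L * ((Fintype.card V : ℝ) / 3) ^ (3 / 2 : ℝ) := by
  classical
  have hs1 : (0 : ℝ) ≤ (s : ℝ) - 1 := by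
    have : (2 : ℝ) ≤ s := by exact_mod_cast hs
    linarith
  have h1 : ∀ i, ((F i).ncard : ℝ) ≤ (s - 1) * ((Fintype.card V : ℝ) / 3) ^ (3 / 2 : ℝ) := by
    intro i
    have h2 := piece_le (r := 3) (e := s) le_rfl (by omega) (H := H)
      (by simpa using hsp) (hF i) (by rw [hH]; exact Set.subset_iUnion F i)
    refine le_of_pow_le_pow_left₀ (n := 2) (by norm_num) (by positivity) ?_
    have h3 : (((Fintype.card V : ℝ) / 3) ^ (3 / 2 : ℝ)) ^ 2 = ((Fintype.card V : ℝ) / 3) ^ 3 := by
      rw [← Real.rpow_natCast, ← Real.rpow_mul (by positivity)]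
      norm_num
    rw [mul_pow, h3]
    have h4 : ((3 ^ 3 * (F i).ncard ^ (3 - 1) : ℕ) : ℝ) ≤
        (((s - 1) ^ (3 - 1) * Fintype.card V ^ 3 : ℕ) : ℝ) := by exact_mod_cast h2
    rw [Nat.cast_mul, Nat.cast_mul, Nat.cast_pow, Nat.cast_pow, Nat.cast_pow, Nat.cast_pow,
      Nat.cast_sub (by omega)] at h4
    norm_num at h4
    rw [div_pow]
    linarith
  have h6 : H.ncard ≤ ∑ i : Fin L, (F i).ncard := by
    rw [hH]
    exact Set.ncard_iUnion_le_of_fintype F
  calc (H.ncard : ℝ) ≤ ((∑ i : Fin L, (F i).ncard : ℕ) : ℝ) := by exact_mod_cast h6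
    _ = ∑ i : Fin L, ((F i).ncard : ℝ) := by push_cast; rfl
    _ ≤ ∑ _i : Fin L, (s - 1) * ((Fintype.card V : ℝ) / 3) ^ (3 / 2 : ℝ) :=
        sum_le_sum fun i _ => h1 i
    _ = (s - 1) * L * ((Fintype.card V : ℝ) / 3) ^ (3 / 2 : ℝ) := by
        rw [sum_const, card_univ, Fintype.card_fin, nsmul_eq_mul]; ring

/-- **Theorem.** (1) Let `s ≥ 2`, and let `H` be a 3-graph on `n` vertices which is the union of `L`
majority pieces. If any `s` edges of `H` span more than `s + 2` vertices, then
`|H| ≤ (s - 1) L (n/3)^{3/2}`. (2) For all `q` there is a majority piece `H` with `n = 3 q²` vertices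
and `q³ = (n/3)^{3/2}` edges, such that any two edges of `H` span more than 4 vertices and any `s` edges
span more than `s + 3` vertices for all `3 ≤ s ≤ 16`. -/
theorem result :
    (∀ (s L : ℕ), 2 ≤ s → ∀ (V : Type) [Fintype V] (H : Set (Finset V))
      (F : Fin L → Set (Finset V)), (∀ i, MajorityPiece 3 (F i)) → H = ⋃ i, F i →
      SpanMore H s (s + 2) →
      (H.ncard : ℝ) ≤ (s - 1) * L * ((Fintype.card V : ℝ) / 3) ^ (3 / 2 : ℝ)) ∧
    (∀ q : ℕ, ∃ (V : Type) (_ : Fintype V) (H : Set (Finset V)),
      Fintype.card V = 3 * q ^ 2 ∧ MajorityPiece 3 H ∧ H.ncard = q ^ 3 ∧ SpanMore H 2 4 ∧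
      ∀ s, 3 ≤ s → s ≤ 16 → SpanMore H s (s + 3)) := by
  refine ⟨fun s L hs V _ H F hF hH hsp => upper s L hs V H F hF hH hsp, fun q => ?_⟩
  refine ⟨GridV 2 q, inferInstance, grid 2 q, card_gridV 2 q, grid_piece 2 q,
    ncard_grid 2 q (by norm_num), ?_, ?_⟩
  · exact grid_span 2 q 2 4 (by norm_num) (by norm_num) (by norm_num)
  · intro s h3 h16
    refine grid_span 2 q s (s + 3) (by norm_num) (by omega) ?_
    interval_cases s <;> norm_num

end Pool.Agent.Results.MP_c82047_co.MajorityPieces
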