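import Pool.Agent.H96.BesTameAsy

/-!
# Triple systems whose edges are given by unions of tame sets

The vertices have names of `m` bits, `n ≤ 2 ^ m ≤ D n`, in any labelling; the names of the three
vertices of an edge, one after the other (in any order), form a string of `3 m` bits. A set of
strings is tame with `c` classes if, for a preferred value of every position and a partition of
the positions into free positions and `c` classes, it is closed under the change of a free
position to the preferred value and under the exchange (relative to the preferred values) of two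
positions of one class. Examples: sets monotone up to the orientation of the positions, in
particular the sets given by one linear threshold gate; sets which depend only on the numbers of
ones in `c` blocks of positions. If the set of the strings of all edges is a union of `L` tame sets
and no `k` edges have at most `k + 3` vertices, where `k = 18` or `k ≥ 23`, then there are at most
`L 2 ^ c n ^ (1 + o(1))` edges.

Method: a string of a tame set has many disjoint moves, all of whose combinations stay in the set,
unless it is described by the preferred values, a side for every class, and a bounded number of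
exceptions. Moves of three types (those of type `j` leave the `j`-th vertex and the positions which
distinguish the vertices unchanged) give an image of a grid of triples.
-/

set_option autoImplicit false

namespace Pool.Agent.Results.MP_c82047_co.MonotoneOrSymmetric

open Pool.Agent.H96.Tame Pool.Agent.H96.Bes

open Classical in
theorem result :
    -- (1) the bound
    (∀ (k D : ℕ) (ε : ℝ), (k = 18 ∨ 23 ≤ k) → 0 < ε →
      ∃ n₀ : ℕ, ∀ (n m c L : ℕ) (lab : Fin n → Fin m → Bool) (E : Finset (Finset (Fin n))),
        n₀ ≤ n → Function.Injective lab → 2 ^ m ≤ D * n → (∀ s ∈ E, s.card = 3) →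
        TameUnion L c (Rel 3 lab E) →
        (∀ T ⊆ E, T.card = k → k + 3 < (T.biUnion id).card) →
        (E.card : ℝ) ≤ L * 2 ^ c * (n : ℝ) ^ (1 + ε)) ∧
    -- (2) triple systems with `c₀ n ^ 2` edges
    (∀ (k D : ℕ) (c₀ ε : ℝ), (k = 18 ∨ 23 ≤ k) → 0 < c₀ → 0 < ε →
      ∃ n₀ : ℕ, ∀ (n m c L : ℕ) (lab : Fin n → Fin m → Bool) (E : Finset (Finset (Fin n))),
        n₀ ≤ n → Function.Injective lab → 2 ^ m ≤ D * n → (∀ s ∈ E, s.card = 3) →
        TameUnion L c (Rel 3 lab E) →
        (∀ T ⊆ E, T.card = k → k + 3 < (T.biUnion id).card) →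
        c₀ * (n : ℝ) ^ 2 ≤ E.card → (n : ℝ) ^ (1 - ε) < L * 2 ^ c) := by
  refine ⟨triple_tame, ?_⟩
  intro k D c₀ ε hk hc hε
  obtain ⟨n₁, hn₁⟩ := triple_tame k D (ε / 2) hk (by linarith)
  have ht := (tendsto_rpow_atTop (show (0 : ℝ) < ε / 2 by linarith)).comp
    (tendsto_natCast_atTop_atTop (R := ℝ))
  obtain ⟨n₂, hn₂⟩ := Filter.eventually_atTop.1 (ht.eventually_gt_atTop (1 / c₀))
  refine ⟨max (max n₁ n₂) 1, fun n m c L lab E hn hlab hD hE hT hfree hbig => ?_⟩
  have h1 : n₁ ≤ n := le_trans (le_trans (le_max_left _ _) (le_max_left _ _)) hn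
  have h2 : n₂ ≤ n := le_trans (le_trans (le_max_right _ _) (le_max_left _ _)) hn
  have h3 : 1 ≤ n := le_trans (le_max_right _ _) hn
  have hn0 : (0 : ℝ) < n := by exact_mod_cast h3
  have hub := hn₁ n m c L lab E h1 hlab hD hE hT hfree
  have hlarge := hn₂ n h2
  simp only [Function.comp] at hlarge
  by_contra hcon
  push Not at hcon
  have h4 : c₀ * (n : ℝ) ^ 2 ≤ (n : ℝ) ^ (1 - ε) * (n : ℝ) ^ (1 + ε / 2) :=
    hbig.trans (hub.trans (mul_le_mul_of_nonneg_right hcon (by positivity)))
  have h5 : (n : ℝ) ^ (1 - ε) * (n : ℝ) ^ (1 + ε / 2) * (n : ℝ) ^ (ε / 2) = (n : ℝ) ^ 2 := by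
    rw [← Real.rpow_add hn0, ← Real.rpow_add hn0, ← Real.rpow_natCast]
    congr 1
    push_cast
    ring
  have h6 : (0 : ℝ) < (n : ℝ) ^ (1 - ε) * (n : ℝ) ^ (1 + ε / 2) := by positivity
  have h7 : 1 < c₀ * (n : ℝ) ^ (ε / 2) := by
    rw [div_lt_iff₀ hc] at hlarge
    linarith
  have h8 : c₀ * (n : ℝ) ^ 2 = (n : ℝ) ^ (1 - ε) * (n : ℝ) ^ (1 + ε / 2) *
      (c₀ * (n : ℝ) ^ (ε / 2)) := by
    rw [← h5]; ring
  rw [h8] at h4
  nlinarith

end Pool.Agent.Results.MP_c82047_co.MonotoneOrSymmetric
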